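import Pool.Agent.H815.QC.Stm

/-!
Project QC (helper815, MP_c91b70_al), part B5: centralizers of elements of full support are abelian.
-/

set_option autoImplicit false

namespace Pool.Agent.H703.QC

open Pool.Agent.Y110.FJ Pool.Agent.T2H65.GP Pool.Agent.H815.QC

theorem triv_of_isEmpty {V : Type} (Λ : SimpleGraph V) (B : V → Type) [∀ v, Group (B v)]
    (hV : IsEmpty V) (y : GrP Λ B) : y = 1 :=
  gind (p := fun y => y = 1) rfl (fun v _ => (hV.false v).elim)
    (fun x y hx hy => by rw [hx, hy, one_mul]) y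

/-- the full group -/
theorem cen (hB1 : S_B1) (n : ℕ) : ∀ (V : Type) [Finite V] (Λ : SimpleGraph V) (B : V → Type)
    [∀ v, Group (B v)] (_ : Nat.card V ≤ n) (_ : ∀ v, IsCyclic (B v)) (x : GrP Λ B)
    (_ : Mn Λ B (fun _ => True) x) (a b : GrP Λ B) (_ : a * x = x * a) (_ : b * x = x * b),
    a * b = b * a := by
  induction n with
  | zero =>
    intro V _ Λ B _ hn _ x _ a b _ _
    have hV' : IsEmpty V := (Finite.card_eq_zero_iff).1 (Nat.le_zero.1 hn)
    rw [triv_of_isEmpty Λ B hV' a, triv_of_isEmpty Λ B hV' b]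
  | succ n ih =>
    intro V _ Λ B _ hn hcyc x hx a b ha hb
    have hzp : ∀ z : GrP Λ B, a ∈ Subgroup.zpowers z → b ∈ Subgroup.zpowers z → a * b = b * a := by
      intro z h1 h2
      obtain ⟨m, rfl⟩ := Subgroup.mem_zpowers_iff.1 h1
      obtain ⟨k, rfl⟩ := Subgroup.mem_zpowers_iff.1 h2
      rw [← zpow_add, ← zpow_add, add_comm]
    by_cases hirr : Irr Λ
    · by_cases hne : ∃ v u : V, u ≠ v
      · obtain ⟨z, -, hz'⟩ := hB1 V Λ B hirr hne x hx
        exact hzp z (hz' a ha) (hz' b hb)
      · push Not at hne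
        rcases isEmpty_or_nonempty V with hV | ⟨⟨v⟩⟩
        · rw [triv_of_isEmpty Λ B hV a, triv_of_isEmpty Λ B hV b]
        · have h1 : ∀ y : GrP Λ B, y ∈ vg Λ B v := by
            intro y
            refine gind (p := fun y => y ∈ vg Λ B v) (one_mem _) (fun u b => ?_)
              (fun x y hx hy => mul_mem hx hy) y
            have := hne v u
            subst this
            exact ⟨b, rfl⟩
          obtain ⟨g, hg⟩ := (hcyc v).exists_generator
          have h2 : ∀ y : GrP Λ B, y ∈ Subgroup.zpowers (GrP.of Λ B v g) := by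
            intro y
            obtain ⟨b, rfl⟩ := h1 y
            obtain ⟨n, hn⟩ := hg b
            exact ⟨n, by rw [← hn]; exact (map_zpow (GrP.of Λ B v) g n).symm⟩
          exact hzp _ (h2 a) (h2 b)
    · -- a join
      rw [Irr] at hirr
      push Not at hirr
      obtain ⟨T, ⟨t₀, ht₀⟩, ⟨s₀, hs₀⟩, hT⟩ := hirr
      have hT' : ∀ t s, ¬ T t → ¬ ¬ T s → Λ.Adj t s := fun t s ht hs =>
        (hT s t (not_not.1 hs) ht).symm
      have hc1 : Nat.card {v // T v} ≤ n := by
        have := Finite.card_subtype_lt (p := fun w => T w) (x := s₀) hs₀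
        omega
      have hc2 : Nat.card {v // ¬ T v} ≤ n := by
        have := Finite.card_subtype_lt (p := fun w => ¬ T w) (x := t₀) (not_not.2 ht₀)
        omega
      have k1 : ret Λ B T a * ret Λ B T b = ret Λ B T b * ret Λ B T a :=
        ih {v // T v} (Λ.comap (Subtype.val : {v // T v} → V))
          (fun w : {v // T v} => B w.1) hc1 (fun w => hcyc w.1) (ret Λ B T x)
          (join_Mn Λ B hT hx) (ret Λ B T a) (ret Λ B T b)
          (by rw [← map_mul, ha, map_mul]) (by rw [← map_mul, hb, map_mul])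
      have k2 : ret Λ B (fun v => ¬ T v) a * ret Λ B (fun v => ¬ T v) b =
          ret Λ B (fun v => ¬ T v) b * ret Λ B (fun v => ¬ T v) a :=
        ih {v // ¬ T v} (Λ.comap (Subtype.val : {v // ¬ T v} → V))
          (fun w : {v // ¬ T v} => B w.1) hc2 (fun w => hcyc w.1) (ret Λ B (fun v => ¬ T v) x)
          (join_Mn Λ B (T := fun v => ¬ T v) hT' hx) (ret Λ B (fun v => ¬ T v) a)
          (ret Λ B (fun v => ¬ T v) b)
          (by rw [← map_mul, ha, map_mul]) (by rw [← map_mul, hb, map_mul])
      have e1 : er Λ B T a * er Λ B T b = er Λ B T b * er Λ B T a := by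
        rw [er, MonoidHom.comp_apply, MonoidHom.comp_apply, ← map_mul, k1, map_mul]
      have e2 : er Λ B (fun v => ¬ T v) a * er Λ B (fun v => ¬ T v) b =
          er Λ B (fun v => ¬ T v) b * er Λ B (fun v => ¬ T v) a := by
        rw [er, MonoidHom.comp_apply, MonoidHom.comp_apply, ← map_mul, k2, map_mul]
      have s1 := std_comm Λ B hT (er_mem Λ B T a) (er_mem Λ B (fun v => ¬ T v) b)
      have s2 := std_comm Λ B hT (er_mem Λ B T b) (er_mem Λ B (fun v => ¬ T v) a)
      calc a * b = (er Λ B T a * er Λ B (fun v => ¬ T v) a) *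
            (er Λ B T b * er Λ B (fun v => ¬ T v) b) := by
            rw [join_dec Λ B hT a, join_dec Λ B hT b]
        _ = er Λ B T a * (er Λ B (fun v => ¬ T v) a * er Λ B T b) * er Λ B (fun v => ¬ T v) b := by
            group
        _ = (er Λ B T a * er Λ B T b) *
            (er Λ B (fun v => ¬ T v) a * er Λ B (fun v => ¬ T v) b) := by
            rw [← s2]
            group
        _ = er Λ B T b * (er Λ B T a * er Λ B (fun v => ¬ T v) b) *
            er Λ B (fun v => ¬ T v) a := by
            rw [e1, e2]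
            group
        _ = (er Λ B T b * er Λ B (fun v => ¬ T v) b) *
            (er Λ B T a * er Λ B (fun v => ¬ T v) a) := by
            rw [s1]
            group
        _ = b * a := by rw [join_dec Λ B hT a, join_dec Λ B hT b]

theorem B5_proof (hB1 : S_B1) : Pool.Agent.H815.QC.S_B5 := by
  intro V _ Λ B _ hcyc T x hx a ha b hb hax hbx
  obtain ⟨x0, rfl⟩ := hx.1
  obtain ⟨a0, rfl⟩ := ha
  obtain ⟨b0, rfl⟩ := hb
  have h1 := Mn_inc Λ B hx
  have h2 : (fun w : {v // T v} => T w.1) = fun _ => True := by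
    funext w
    exact propext ⟨fun _ => trivial, fun _ => w.2⟩
  rw [h2] at h1
  rw [← map_mul, ← map_mul] at hax hbx
  have h3 := cen hB1 _ {v // T v} (Λ.comap (Subtype.val : {v // T v} → V))
    (fun w : {v // T v} => B w.1) le_rfl (fun w => hcyc w.1) x0 h1 a0 b0
    (inc_inj Λ B T hax) (inc_inj Λ B T hbx)
  rw [← map_mul, h3, map_mul]

end Pool.Agent.H703.QC
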